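import Pool.Agent.Lib.MP_8f66f0_al_ZE.Main
import Pool.Agent.Lib.MP_8f66f0_al_ZA.Defs
import Pool.Agent.Lib.MP_8f66f0_al_ZT2.Main

/-! Project ZERO, part E: the statement `ZA.S_E`, from `S_T1`. -/

set_option autoImplicit false

namespace Pool.Agent.ZE

open Pool.Agent.WaldL Pool.Agent.ZT1
open scoped Pointwise

section Adapter

variable {G Y : Type} [Group G] [MetricSpace Y] [MulAction G Y]

/-- The geometry of `ZA` for a group acting through `G`. -/
noncomputable def ofZA (Γ : ZA.Geo G Y) (H : Type) [Group H] (ρ : H →* G) :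
    letI : MulAction H Y := MulAction.compHom Y ρ
    Geo H Y Γ.D :=
  letI : MulAction H Y := MulAction.compHom Y ρ
  { iso := fun g x y => Γ.gdist (ρ g) x y
    c := Γ.ln
    c0 := Γ.ln0
    c1 := Γ.ln1
    len := fun y z s t _ _ _ _ => Γ.dln y z s t
    eqv := fun g y z s _ _ => Γ.gln (ρ g) y z s
    cons := fun y z s t _ _ _ _ => by
      have h := Γ.lnln y z 0 s t
      rw [Γ.ln0] at h
      rw [h]
      congr 1
      ring
    cvl := fun y y' z s h0 h1 => by
      have h := Γ.cvx y z y' z s h0 h1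
      rw [dist_self, mul_zero, add_zero] at h
      exact h
    cvr := fun y z z' s h0 h1 => by
      have h := Γ.cvx y z y z' s h0 h1
      rw [dist_self, mul_zero, zero_add] at h
      exact h
    o := Γ.x₀
    e := Γ.chart.symm
    es := fun u s _ _ => by
      apply Γ.chart.injective
      rw [Homeomorph.apply_symm_apply, Γ.chart_ln, Homeomorph.apply_symm_apply] }

/-- Subgroups which preserve a finite set. -/
theorem map_stab {H J : Type} [Group H] [MulAction G J] (ρ : H →* G) (s : Finset J)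
    (U : Subgroup H) (hU : ∀ g ∈ U, ∀ v ∈ s, ρ g • v ∈ s) :
    ∀ g ∈ U.map ρ, g • (s : Set J) = s := by
  rintro _ ⟨g, hg, rfl⟩
  apply Set.Subset.antisymm
  · rintro _ ⟨v, hv, rfl⟩
    exact hU g hg v hv
  · intro v hv
    refine ⟨(ρ g)⁻¹ • v, ?_, smul_inv_smul _ _⟩
    have := hU g⁻¹ (U.inv_mem hg) v hv
    rwa [map_inv] at this

variable {Sm : Subgroup G → Prop} {n : ℕ}

theorem famFin {M : Type} {a : G → M → M} (U : ZA.Fam G M a Sm n) (x : M) :
    ∃ s : Finset U.J, s.card ≤ n ∧ ∀ v, U.u v x ≠ 0 → v ∈ s := by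
  refine ⟨(U.fin x).toFinset, ?_, fun v hv => (U.fin x).mem_toFinset.2 hv⟩
  have := U.card x
  rwa [Set.ncard_eq_toFinset_card _ (U.fin x)] at this

/-- **Part E**, in the form of `ZA/Defs.lean`. -/
theorem tE_ZA (hT1 : S_T1) (hT2 : S_T2) : ZA.S_E := by
  intro G Y _ _ _ Γ Sm n hst hlt H _ ρ hρ
  let _ : MulAction H Y := MulAction.compHom Y ρ
  refine tE hT1 hT2 H Y Γ.D (ofZA Γ H ρ) ?_ ?_
  · obtain ⟨U, hUC, hU1⟩ := hst
    let _ := U.act
    let _ : MulAction H U.J := MulAction.compHom U.J ρ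
    refine ⟨n, U.J, inferInstance, U.u, ?_⟩
    refine ⟨U.nonneg, U.le_one, fun g v y => U.inv (ρ g) v y, famFin U, hU1, ?_, ?_⟩
    · intro y ε hε
      obtain ⟨δ, hδ, h⟩ := hUC ε hε
      exact ⟨δ, hδ, fun y' hy v => h y y' hy v⟩
    · intro y s hs hne V hV
      refine hρ V (U.small y (s : Set U.J) (by exact_mod_cast hs) (fun j hj => hne j hj) _ ?_)
      exact map_stab ρ s V hV
  · refine ⟨n, fun α ε hα hε => ?_⟩
    obtain ⟨U, hUC, hUs, hU1⟩ := hlt (α / ε) (div_pos hα hε)
    let _ := U.act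
    let _ : MulAction H U.J := MulAction.compHom U.J ρ
    obtain ⟨δ, hδ, hδ'⟩ := hUC ε hε
    classical
    let w : U.J → Y → Y → ℝ := fun v a b =>
      if h : dist a b = 1 then U.u v ⟨(a, b), h⟩ else 0
    have hw : ∀ v a b (h : dist a b = 1), w v a b = U.u v ⟨(a, b), h⟩ := fun v a b h => dif_pos h
    refine ⟨U.J, inferInstance, w, δ, hδ, ?_⟩
    refine ⟨?_, ?_, ?_, ?_, ?_, ?_, ?_, ?_⟩
    · intro v a b h
      rw [hw v a b h]
      exact U.nonneg _ _
    · intro v a b h
      rw [hw v a b h]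
      exact U.le_one _ _
    · intro g v a b h
      have h' : dist (g • a) (g • b) = 1 := by
        change dist (ρ g • a) (ρ g • b) = 1
        rw [Γ.gdist, h]
      rw [hw v a b h, hw _ _ _ h']
      exact U.inv (ρ g) v ⟨(a, b), h⟩
    · intro a b h
      obtain ⟨s, hs, hs'⟩ := famFin U ⟨(a, b), h⟩
      exact ⟨s, hs, fun v hv => hs' v (by rwa [hw v a b h] at hv)⟩
    · intro a b h
      obtain ⟨v, hv⟩ := hU1 ⟨(a, b), h⟩
      exact ⟨v, by rw [hw v a b h]; exact hv⟩
    · intro y z t t' ht ht' h h' hα' v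
      have hd : 0 < dist y z := by linarith
      have e : ∀ s, 0 ≤ s → s + 1 ≤ dist y z →
          dist (Γ.ln y z (s / dist y z)) (Γ.ln y z ((s + 1) / dist y z)) = 1 := fun s h0 h1 =>
        dist_seg (ofZA Γ H ρ) h0 h1
      change |w v (Γ.ln y z (t / dist y z)) (Γ.ln y z ((t + 1) / dist y z)) -
        w v (Γ.ln y z (t' / dist y z)) (Γ.ln y z ((t' + 1) / dist y z))| ≤ ε
      rw [hw _ _ _ (e t ht h), hw _ _ _ (e t' ht' h')]
      have hfl : Γ.fl (t - t') ⟨(Γ.ln y z (t' / dist y z), Γ.ln y z ((t' + 1) / dist y z)),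
          e t' ht' h'⟩ = ⟨(Γ.ln y z (t / dist y z), Γ.ln y z ((t + 1) / dist y z)), e t ht h⟩ := by
        apply Subtype.ext
        apply Prod.ext
        · change Γ.ln (Γ.ln y z (t' / dist y z)) (Γ.ln y z ((t' + 1) / dist y z)) (t - t') =
            Γ.ln y z (t / dist y z)
          rw [Γ.lnln]
          congr 1
          field_simp
          ring
        · change Γ.ln (Γ.ln y z (t' / dist y z)) (Γ.ln y z ((t' + 1) / dist y z)) (t - t' + 1) =
            Γ.ln y z ((t + 1) / dist y z)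
          rw [Γ.lnln]
          congr 1
          field_simp
          ring
      have h1 := hUs v ⟨(Γ.ln y z (t' / dist y z), Γ.ln y z ((t' + 1) / dist y z)),
        e t' ht' h'⟩ (t - t')
      rw [hfl] at h1
      refine h1.trans ?_
      rw [div_le_iff₀ (div_pos hα hε)]
      have : ε * (α / ε) = α := by field_simp
      rw [this]
      exact hα'
    · intro a b a' b' h h' h1 h2 v
      rw [hw _ _ _ h, hw _ _ _ h']
      exact hδ' _ _ (max_le h1 h2) v
    · intro a b h s hs hne V hV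
      refine hρ V (U.small ⟨(a, b), h⟩ (s : Set U.J) (by exact_mod_cast hs) (fun j hj => ?_) _ ?_)
      · have := hne j hj
        rwa [hw _ _ _ h] at this
      · exact map_stab ρ s V hV

end Adapter

/-- **Part E**: `S_T1` implies `ZA.S_E` (T2 is proved). -/
theorem tSE (hT1 : S_T1) : ZA.S_E := tE_ZA hT1 ZT2.t2

end Pool.Agent.ZE
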