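import Pool.Agent.Lib.MP_8f66f0_al_ZT1.Defs
import Pool.Agent.Lib.MP_8f66f0_al_ZT2.Dim

/-! Project ZERO, part E (estimates and gluing): definitions and the statement to be proved.

`G` acts by isometries on a metric space `Y` with a consistent convex bicombing `c` (geodesic segments
with affine parameter in `[0, 1]`) and logarithmic coordinates `e` at the base point `o`. -/

set_option autoImplicit false

namespace Pool.Agent.ZE

open Pool.Agent.Wald Pool.Agent.Ind Pool.Agent.WaldL Pool.Agent.FH Pool.Agent.ZT1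
open Pool.Agent.ZT2 (SCx)

/-- The geometry (part X). -/
structure Geo (G Y : Type) [Group G] [MulAction G Y] [MetricSpace Y] (D : ℕ) where
  iso : ∀ (g : G) (x y : Y), dist (g • x) (g • y) = dist x y
  c : Y → Y → ℝ → Y
  c0 : ∀ y z, c y z 0 = y
  c1 : ∀ y z, c y z 1 = z
  len : ∀ (y z : Y) (s t : ℝ), 0 ≤ s → s ≤ 1 → 0 ≤ t → t ≤ 1 →
    dist (c y z s) (c y z t) = |s - t| * dist y z
  eqv : ∀ (g : G) (y z : Y) (s : ℝ), 0 ≤ s → s ≤ 1 → g • c y z s = c (g • y) (g • z) s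
  cons : ∀ (y z : Y) (s t : ℝ), 0 ≤ s → s ≤ 1 → 0 ≤ t → t ≤ 1 → c y (c y z s) t = c y z (s * t)
  cvl : ∀ (y y' z : Y) (s : ℝ), 0 ≤ s → s ≤ 1 →
    dist (c y z s) (c y' z s) ≤ (1 - s) * dist y y'
  cvr : ∀ (y z z' : Y) (s : ℝ), 0 ≤ s → s ≤ 1 → dist (c y z s) (c y z' s) ≤ s * dist z z'
  o : Y
  e : (Fin D → ℝ) ≃ₜ Y
  es : ∀ (u : Fin D → ℝ) (s : ℝ), 0 ≤ s → s ≤ 1 → e (s • u) = c o (e u) s

variable {G Y : Type} [Group G] [MulAction G Y] [MetricSpace Y] {D : ℕ}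

/-- A thin partition of `Y` (not normalized) with at most `M` non-zero functions at every point; the
stabilizers of the simplices are in `KK`. -/
structure Thin (P : Geo G Y D) (V : Type) [MulAction G V] (M : ℕ) (w : V → Y → ℝ) : Prop where
  nn : ∀ v y, 0 ≤ w v y
  le1 : ∀ v y, w v y ≤ 1
  eqv : ∀ (g : G) v y, w (g • v) (g • y) = w v y
  fin : ∀ y, ∃ s : Finset V, s.card ≤ M ∧ ∀ v, w v y ≠ 0 → v ∈ s
  cov : ∀ y, ∃ v, w v y = 1
  cts : ∀ (y : Y) (ε : ℝ), 0 < ε → ∃ δ : ℝ, 0 < δ ∧ ∀ y', dist y y' ≤ δ →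
    ∀ v, |w v y - w v y'| ≤ ε
  stab : ∀ (y : Y) (s : Finset V), s.Nonempty → (∀ v ∈ s, w v y ≠ 0) →
    ∀ U : Subgroup G, (∀ g ∈ U, ∀ v ∈ s, g • v ∈ s) → KK U

/-- A long (slow along geodesics: `α`, `ε`) and thin (`δ`) partition of the flow space, i.e. of the
pairs `(a, b)` of points of `Y` at distance `1`. -/
structure LT (P : Geo G Y D) (V : Type) [MulAction G V] (M : ℕ) (α ε δ : ℝ) (w : V → Y → Y → ℝ) :
    Prop where
  nn : ∀ v a b, dist a b = 1 → 0 ≤ w v a b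
  le1 : ∀ v a b, dist a b = 1 → w v a b ≤ 1
  eqv : ∀ (g : G) v a b, dist a b = 1 → w (g • v) (g • a) (g • b) = w v a b
  fin : ∀ a b, dist a b = 1 → ∃ s : Finset V, s.card ≤ M ∧ ∀ v, w v a b ≠ 0 → v ∈ s
  cov : ∀ a b, dist a b = 1 → ∃ v, w v a b = 1
  slow : ∀ (y z : Y) (t t' : ℝ), 0 ≤ t → 0 ≤ t' → t + 1 ≤ dist y z → t' + 1 ≤ dist y z →
    |t - t'| ≤ α → ∀ v, |w v (P.c y z (t / dist y z)) (P.c y z ((t + 1) / dist y z)) -
      w v (P.c y z (t' / dist y z)) (P.c y z ((t' + 1) / dist y z))| ≤ ε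
  uni : ∀ a b a' b', dist a b = 1 → dist a' b' = 1 → dist a a' ≤ δ → dist b b' ≤ δ →
    ∀ v, |w v a b - w v a' b'| ≤ ε
  stab : ∀ a b, dist a b = 1 → ∀ s : Finset V, s.Nonempty → (∀ v ∈ s, w v a b ≠ 0) →
    ∀ U : Subgroup G, (∀ g ∈ U, ∀ v ∈ s, g • v ∈ s) → KK U

/-- Barycentric coordinates of a point of the realization (the same as in `ZT2/Main.lean`; this
file imports only `ZT2/Dim.lean`, which is quickly built). -/
def IsPt {V : Type} (Sx : Set (Finset V)) (x : V → ℝ) : Prop :=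
  ∃ s ∈ Sx, (∀ v, 0 ≤ x v) ∧ (∀ v, x v ≠ 0 → v ∈ s) ∧ ∑ v ∈ s, x v = 1

/-- The statement `ZT2.S_T2` (proved in `ZT2/Main.lean`). -/
def S_T2 : Prop :=
  ∀ K : ℕ, ∃ ε : ℝ, 0 < ε ∧ ∀ (G V : Type) [Group G] [MulAction G V] [DecidableEq V]
    (Sx : Set (Finset V)), SCx G Sx K →
    (∀ s ∈ Sx, s.Nonempty → ∀ U : Subgroup G, (∀ g ∈ U, s.image (g • ·) = s) → KK U) →
    ∀ (L : Type) [CommRing L] [IsDomain L], IsEuc L →
    ∀ (n m : Type) [Fintype n] [DecidableEq n] [Fintype m] [DecidableEq m] (p : n → V → ℝ)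
      (q : m → V → ℝ) (a : Matrix n m (MonoidAlgebra L G)) (a' : Matrix m n (MonoidAlgebra L G)),
      (∀ i, IsPt Sx (p i)) → (∀ k, IsPt Sx (q k)) → a * a' = 1 → a' * a = 1 →
      (∀ i k (γ : G), (a i k).coeff γ ≠ 0 → ∀ v, |p i v - q k (γ⁻¹ • v)| ≤ ε) →
      (∀ k i (γ : G), (a' k i).coeff γ ≠ 0 → ∀ v, |q k v - p i (γ⁻¹ • v)| ≤ ε) →
      ∀ (C : Type) [CommGroup C] (κ : K1Fun (MonoidAlgebra L G) C), KU κ →
      ∀ e : n ≃ m, κ.f (a.submatrix id e) = 1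

/-- **Part E.** -/
def S_E : Prop :=
  S_T1 → S_T2 → ∀ (G Y : Type) [Group G] [MulAction G Y] [MetricSpace Y] (D : ℕ) (P : Geo G Y D),
    (∃ (M : ℕ) (V : Type) (_ : MulAction G V) (w : V → Y → ℝ), Thin P V M w) →
    (∃ M : ℕ, ∀ α ε : ℝ, 0 < α → 0 < ε → ∃ (V : Type) (_ : MulAction G V) (w : V → Y → Y → ℝ)
      (δ : ℝ), 0 < δ ∧ LT P V M α ε δ w) → KK G

/-! ### Auxiliary definitions for the proof -/

/-- The truncation to `[0, 1]`. -/
noncomputable def cl (s : ℝ) : ℝ := max 0 (min 1 s)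

theorem cl_nn (s : ℝ) : 0 ≤ cl s := le_max_left _ _

theorem cl_le (s : ℝ) : cl s ≤ 1 := max_le zero_le_one (min_le_left _ _)

theorem cl_of_mem {s : ℝ} (h0 : 0 ≤ s) (h1 : s ≤ 1) : cl s = s := by
  rw [cl, min_eq_right h1, max_eq_right h0]

theorem cl_of_ge {s : ℝ} (h : 1 ≤ s) : cl s = 1 := by
  rw [cl, min_eq_left h, max_eq_right zero_le_one]

theorem cl_of_le {s : ℝ} (h : s ≤ 0) : cl s = 0 := by
  rw [cl, max_eq_left ((min_le_right _ _).trans h)]

theorem cl_abs (s t : ℝ) : |cl s - cl t| ≤ |s - t| := by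
  unfold cl
  have h1 : |max 0 (min 1 s) - max 0 (min 1 t)| ≤ |min 1 s - min 1 t| := by
    have := abs_max_sub_max_le_abs (min 1 s) (min 1 t) 0
    rwa [max_comm, max_comm (min 1 t)] at this
  have h2 : |min 1 s - min 1 t| ≤ |s - t| := by
    have := abs_min_sub_min_le_max 1 s 1 t
    rw [sub_self, abs_zero, max_eq_right (abs_nonneg _)] at this
    exact this
  exact h1.trans h2

theorem cl_continuous : Continuous cl :=
  continuous_const.max (continuous_const.min continuous_id)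

/-- The radial retraction to the ball of radius `q` around `o`. -/
noncomputable def Geo.rr (P : Geo G Y D) (q : ℝ) (z : Y) : Y :=
  P.c P.o z (q / max q (dist P.o z))

/-- Functions on the vertices of a simplicial complex. -/
def RPt (V : Type) : Type := V → ℝ

instance instRPt {G V : Type} [Group G] [MulAction G V] : MulAction G (RPt V) where
  smul g x := fun v => x (g⁻¹ • v)
  one_smul x := by
    funext v
    change x ((1 : G)⁻¹ • v) = x v
    rw [inv_one, one_smul]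
  mul_smul g h x := by
    funext v
    change x ((g * h)⁻¹ • v) = x (h⁻¹ • g⁻¹ • v)
    rw [mul_inv_rev, mul_smul]

theorem smul_apply {G V : Type} [Group G] [MulAction G V] (g : G) (x : RPt V) (v : V) :
    (g • x) v = x (g⁻¹ • v) := rfl

end Pool.Agent.ZE
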