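import Pool.Agent.Lib.MP_8f66f0_al_ZE.Pt

/-! Project ZERO, part E: the estimates. -/

set_option autoImplicit false

namespace Pool.Agent.ZE

variable {G Y : Type} [Group G] [MulAction G Y] [MetricSpace Y] {D : ℕ}
  {V₀ V : Type} [MulAction G V₀] [MulAction G V]
  {P : Geo G Y D} {w₀ : V₀ → Y → ℝ} {w : V → Y → Y → ℝ} {M₀ M : ℕ} {α ε δ : ℝ}

/-- Two segments with the same end point. -/
theorem seg_dist (P : Geo G Y D) {y y' z : Y} {β s : ℝ} (hβ : dist y y' ≤ β) (hs0 : 0 ≤ s)
    (hs : s ≤ dist y z) (hd : 0 < dist y z) (hd' : 0 < dist y' z)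
    (hs' : 0 ≤ s + (dist y' z - dist y z)) :
    dist (P.c y z (s / dist y z)) (P.c y' z ((s + (dist y' z - dist y z)) / dist y' z)) ≤
      2 * β * (dist y z - s) / dist y z := by
  obtain ⟨d, hde⟩ : ∃ d, d = dist y z := ⟨_, rfl⟩
  obtain ⟨d', hde'⟩ : ∃ d', d' = dist y' z := ⟨_, rfl⟩
  have hτ : |d' - d| ≤ β := by
    rw [hde, hde', abs_le]
    have h1 := dist_triangle y y' z
    have h2 := dist_triangle y' y z
    rw [dist_comm y' y] at h2
    constructor <;> linarith
  rw [← hde] at hs hd hs' ⊢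
  rw [← hde'] at hd' hs' ⊢
  have hs1 : 0 ≤ s / d := by positivity
  have hs2 : s / d ≤ 1 := by rw [div_le_one hd]; exact hs
  have hs3 : 0 ≤ (s + (d' - d)) / d' := by positivity
  have hs4 : (s + (d' - d)) / d' ≤ 1 := by rw [div_le_one hd']; linarith
  have e1 := P.cvl y y' z _ hs1 hs2
  have e2 := P.len y' z _ _ hs1 hs2 hs3 hs4
  have h1s : 0 ≤ 1 - s / d := by linarith
  have e3 : (1 - s / d) * dist y y' ≤ (1 - s / d) * β := mul_le_mul_of_nonneg_left hβ h1s
  have e4 : |s / d - (s + (d' - d)) / d'| * d' = |d' - d| * (1 - s / d) := by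
    have : s / d - (s + (d' - d)) / d' = (d' - d) * (s / d - 1) / d' := by
      field_simp
      ring
    rw [this, abs_div, abs_of_pos hd', div_mul_cancel₀ _ hd'.ne', abs_mul,
      abs_sub_comm (s / d) 1, abs_of_nonneg h1s]
  rw [← hde', e4] at e2
  have e5 : |d' - d| * (1 - s / d) ≤ β * (1 - s / d) := mul_le_mul_of_nonneg_right hτ h1s
  have e6 : 2 * β * (d - s) / d = 2 * β * (1 - s / d) := by
    field_simp
  rw [e6]
  calc dist (P.c y z (s / d)) (P.c y' z ((s + (d' - d)) / d'))
      ≤ dist (P.c y z (s / d)) (P.c y' z (s / d)) +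
        dist (P.c y' z (s / d)) (P.c y' z ((s + (d' - d)) / d')) := dist_triangle _ _ _
    _ ≤ _ := by rw [e2]; linarith

/-- The weights at the same time on two segments with the same end point. -/
theorem sgw_sub (h : LT P V M α ε δ w) {y y' z : Y} {β t R : ℝ} (hβ0 : 0 ≤ β)
    (hβ : dist y y' ≤ β) (hα : β ≤ α) (ht : β ≤ t) (hy : t + 1 ≤ dist y z)
    (hy' : t + 1 ≤ dist y' z) (hR : dist y z ≤ R)
    (hδ : 2 * β * (R - t) ≤ δ * (t + 1)) (v : V) :
    |sgw P w t y z v - sgw P w t y' z v| ≤ 2 * ε := by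
  have ht0 : 0 ≤ t := hβ0.trans ht
  have hd : 0 < dist y z := by linarith
  have hd' : 0 < dist y' z := by linarith
  have hτ : |dist y' z - dist y z| ≤ β := by
    rw [abs_le]
    have h1 := dist_triangle y y' z
    have h2 := dist_triangle y' y z
    rw [dist_comm y' y] at h2
    constructor <;> linarith
  have hτ' := abs_le.1 hτ
  have hδ1 : 2 * β * (R - t) / (t + 1) ≤ δ := by
    rw [div_le_iff₀ (by linarith)]
    exact hδ
  have key : ∀ s, t ≤ s → s ≤ t + 1 →
      dist (P.c y z (s / dist y z))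
        (P.c y' z ((s + (dist y' z - dist y z)) / dist y' z)) ≤ δ := by
    intro s hs hs1
    refine (seg_dist P hβ (ht0.trans hs) (hs1.trans hy) hd hd' (by linarith)).trans ?_
    refine le_trans ?_ hδ1
    refine div_le_div₀ ?_ ?_ (by linarith) hy
    · exact mul_nonneg (by linarith) (by linarith)
    · exact mul_le_mul_of_nonneg_left (by linarith) (by linarith)
  have e1 := h.uni _ _ _ _ (dist_seg P ht0 hy)
    (dist_seg P (y := y') (z := z) (t := t + (dist y' z - dist y z)) (by linarith) (by linarith))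
    (key t le_rfl (by linarith)) (by
      have := key (t + 1) (by linarith) le_rfl
      rwa [show t + 1 + (dist y' z - dist y z) = t + (dist y' z - dist y z) + 1 by ring] at this) v
  have e2 := h.slow y' z (t + (dist y' z - dist y z)) t (by linarith) ht0 (by linarith) hy'
    (by rw [add_sub_cancel_left]; exact hτ.trans hα) v
  have e3 := abs_sub_le (sgw P w t y z v)
    (w v (P.c y' z ((t + (dist y' z - dist y z)) / dist y' z))
      (P.c y' z ((t + (dist y' z - dist y z) + 1) / dist y' z))) (sgw P w t y' z v)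
  refine e3.trans ?_
  have e4 : |sgw P w t y z v - w v (P.c y' z ((t + (dist y' z - dist y z)) / dist y' z))
      (P.c y' z ((t + (dist y' z - dist y z) + 1) / dist y' z))| ≤ ε := e1
  have e5 : |w v (P.c y' z ((t + (dist y' z - dist y z)) / dist y' z))
      (P.c y' z ((t + (dist y' z - dist y z) + 1) / dist y' z)) - sgw P w t y' z v| ≤ ε := e2
  linarith

/-- A product estimate. -/
theorem prod_sub {l l' n n' e₁ e₂ : ℝ} (hl0 : 0 ≤ l') (hl1 : l' ≤ 1) (hn0 : 0 ≤ n) (hn1 : n ≤ 1)
    (h1 : |l - l'| ≤ e₁) (h2 : |n - n'| ≤ e₂) : |l * n - l' * n'| ≤ e₁ + e₂ := by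
  have e : l * n - l' * n' = (l - l') * n + l' * (n - n') := by ring
  rw [e]
  refine (abs_add_le _ _).trans ?_
  rw [abs_mul, abs_mul, abs_of_nonneg hn0, abs_of_nonneg hl0]
  have h3 : |l - l'| * n ≤ |l - l'| := mul_le_of_le_one_right (abs_nonneg _) hn1
  have h4 : l' * |n - n'| ≤ |n - n'| := mul_le_of_le_one_left (abs_nonneg _) hl1
  linarith

/-- **(A)** Two starting points, the same end point. -/
theorem gl_sub (h0 : Thin P V₀ M₀ w₀) (h : LT P V M α ε δ w) (π : Par) {y y' z : Y} {β : ℝ}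
    (hβ0 : 0 ≤ β) (hε : 0 ≤ ε) (hβ : dist y y' ≤ β) (hα : β ≤ α) (ht : β ≤ π.t)
    (htT : π.t + 1 + 2 * β ≤ π.T - π.a) (hy : dist y z ≤ π.T + 2 * β)
    (hδ : 2 * β * (π.T + 2 * β - π.t) ≤ δ * (π.t + 1)) (x : V₀ ⊕ V) :
    |gl P w₀ w π y z x - gl P w₀ w π y' z x| ≤ β / π.a + 2 * (2 * M + 1) * ε := by
  have hτ : |dist y z - dist y' z| ≤ β := by
    rw [abs_le]
    have h1 := dist_triangle y y' z
    have h2 := dist_triangle y' y z
    rw [dist_comm y' y] at h2
    constructor <;> linarith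
  have hτ' := abs_le.1 hτ
  have hl : |lam π.T π.a (dist y z) - lam π.T π.a (dist y' z)| ≤ β / π.a :=
    (lam_sub π.ha).trans (div_le_div_of_nonneg_right hτ π.ha.le)
  have hM : 0 ≤ 2 * (2 * (M : ℝ) + 1) * ε := by positivity
  rcases x with v | v
  · rw [gl_inl, gl_inl]
    have hw0 := h0.wt z
    have := prod_sub (l := lam π.T π.a (dist y z)) (n' := nrm (fun u => w₀ u z) v)
      (lam_nn π.T π.a (dist y' z)) (lam_le _ _ _) (hw0.nrm_nn v) (hw0.nrm_le v) hl
      (e₂ := 0) (by rw [sub_self, abs_zero])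
    linarith
  · rw [gl_inr, gl_inr]
    by_cases hc : dist y z ≤ π.T - π.a - β
    · rw [lam_one π.ha (by linarith), lam_one π.ha (by linarith), sub_self, zero_mul, zero_mul,
        sub_self, abs_zero]
      have : 0 ≤ β / π.a := div_nonneg hβ0 π.ha.le
      linarith
    · push Not at hc
      have hy1 : π.t + 1 ≤ dist y z := by linarith
      have hy2 : π.t + 1 ≤ dist y' z := by linarith
      have hw := h.wtS π.ht hy1
      have hw' := h.wtS π.ht hy2
      have hn := hw.nrm_sub hw' (fun u => sgw_sub h hβ0 hβ hα ht hy1 hy2 hy hδ u) v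
      have := prod_sub (l := 1 - lam π.T π.a (dist y z)) (l' := 1 - lam π.T π.a (dist y' z))
        (sub_nonneg.2 (lam_le _ _ _)) (by have := lam_nn π.T π.a (dist y' z); linarith)
        (hw.nrm_nn v) (hw.nrm_le v) (e₁ := β / π.a)
        (by rw [sub_sub_sub_cancel_left, abs_sub_comm]; exact hl) hn
      linarith

/-- **(B)** The end point moves along the ray. -/
theorem gl_ray (π : Par) {y z : Y} {s : ℝ} (hs0 : 0 ≤ s) (hs1 : s ≤ 1)
    (hs : π.T ≤ s * dist y z) : gl P w₀ w π y (P.c y z s) = gl P w₀ w π y z := by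
  have hT := π.T_pos
  have hd : 0 < s * dist y z := hT.trans_le hs
  have hd1 : s * dist y z ≤ dist y z := mul_le_of_le_one_left dist_nonneg hs1
  have hd2 : 0 < dist y z := hd.trans_le hd1
  have hs2 : 0 < s := by
    rcases hs0.lt_or_eq with h | h
    · exact h
    · rw [← h, zero_mul] at hd
      exact absurd hd (lt_irrefl _)
  have e1 : dist y (P.c y z s) = s * dist y z := P.dist_c _ _ hs0 hs1
  have ht := π.ht
  have htT := π.htT
  have ha := π.ha
  funext x
  rcases x with v | v
  · rw [gl_inl, gl_inl, e1, lam_zero π.ha hs, lam_zero π.ha (hs.trans hd1), zero_mul, zero_mul]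
  · rw [gl_inr, gl_inr, e1, lam_zero π.ha hs, lam_zero π.ha (hs.trans hd1)]
    congr 2
    funext u
    have key : ∀ r, 0 ≤ r → r ≤ s * dist y z →
        P.c y (P.c y z s) (r / (s * dist y z)) = P.c y z (r / dist y z) := by
      intro r hr0 hr1
      rw [P.cons y z s _ hs0 hs1 (by positivity) (by rw [div_le_one hd]; exact hr1)]
      congr 1
      field_simp
    rw [sgw, sgw, e1, key _ ht (by linarith), key _ (by linarith) (by linarith)]

/-- The retraction does not change the value. -/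
theorem gl_rr (π : Par) (z : Y) : gl P w₀ w π P.o (P.rr π.T z) = gl P w₀ w π P.o z := by
  by_cases h : dist P.o z ≤ π.T
  · rw [P.rr_of_le π.T_pos h]
  · push Not at h
    have hd : 0 < dist P.o z := π.T_pos.trans h
    rw [Geo.rr_def, rat_of_ge h.le]
    refine gl_ray π (div_nonneg π.T_pos.le hd.le) (by rw [div_le_one hd]; exact h.le) ?_
    rw [div_mul_cancel₀ _ hd.ne']

theorem gl_pth (π : Par) (z : Y) (s : ℝ) :
    gl P w₀ w π P.o (P.pth π.T z s) = gl P w₀ w π P.o z := by
  by_cases h : dist P.o z ≤ π.T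
  · have : P.hp π.T z s = 1 := by
      rw [Geo.hp, rat_of_le π.T_pos h, sub_self, mul_zero, add_zero]
    rw [Geo.pth, this, P.c1]
  · push Not at h
    have hd : 0 < dist P.o z := π.T_pos.trans h
    refine gl_ray π (P.hp_nn π.T_pos _ _) (P.hp_le π.T_pos _ _) ?_
    have h1 := P.hp_ge π.T_pos z s
    rw [rat_of_ge h.le, div_le_iff₀ hd] at h1
    exact h1

theorem pth_dist (π : Par) (z : Y) (s : ℝ) : dist P.o (P.pth π.T z s) ≤ dist P.o z := by
  rw [Geo.pth, P.dist_c _ _ (P.hp_nn π.T_pos _ _) (P.hp_le π.T_pos _ _)]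
  exact mul_le_of_le_one_left dist_nonneg (P.hp_le π.T_pos _ _)

/-- **(C)** Local continuity. -/
theorem gl_cont (h0 : Thin P V₀ M₀ w₀) (h : LT P V M α ε δ w) (π : Par) {β : ℝ} (hβ0 : 0 < β)
    (hε : 0 ≤ ε) (hδ : 0 < δ) (htT : π.t + 1 + 2 * β ≤ π.T - π.a) (z : Y) {ε₀ : ℝ}
    (hε0 : 0 < ε₀) (hε1 : (2 * M + 1) * ε ≤ ε₀ / 2) :
    ∃ r : ℝ, 0 < r ∧ ∀ z', dist z z' ≤ r → ∀ x : V₀ ⊕ V,
      |gl P w₀ w π P.o z x - gl P w₀ w π P.o z' x| ≤ ε₀ := by
  have hM0 : (0 : ℝ) < 2 * M₀ + 1 := by positivity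
  obtain ⟨δ₀, hδ₀, hthin⟩ := h0.cts z (ε₀ / 2 / (2 * M₀ + 1)) (by positivity)
  have ha := π.ha
  have ht := π.ht
  refine ⟨min (min δ₀ (δ / 2)) (min β (ε₀ / 2 * π.a)), by positivity, fun z' hz x => ?_⟩
  have r1 : dist z z' ≤ δ₀ := hz.trans ((min_le_left _ _).trans (min_le_left _ _))
  have r2 : dist z z' ≤ δ / 2 := hz.trans ((min_le_left _ _).trans (min_le_right _ _))
  have r3 : dist z z' ≤ β := hz.trans ((min_le_right _ _).trans (min_le_left _ _))
  have r4 : dist z z' ≤ ε₀ / 2 * π.a := hz.trans ((min_le_right _ _).trans (min_le_right _ _))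
  have hτ : |dist P.o z - dist P.o z'| ≤ dist z z' := by
    rw [abs_le]
    have h1 := dist_triangle P.o z' z
    have h2 := dist_triangle P.o z z'
    rw [dist_comm z' z] at h1
    constructor <;> linarith
  have hτ' := abs_le.1 hτ
  have hl : |lam π.T π.a (dist P.o z) - lam π.T π.a (dist P.o z')| ≤ ε₀ / 2 := by
    refine (lam_sub π.ha).trans ?_
    rw [div_le_iff₀ ha]
    exact hτ.trans r4
  rcases x with v | v
  · rw [gl_inl, gl_inl]
    have hw0 := h0.wt z
    have hw0' := h0.wt z'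
    have hn := hw0.nrm_sub hw0' (hthin z' r1) v
    rw [mul_div_cancel₀ _ hM0.ne'] at hn
    have := prod_sub (lam_nn π.T π.a (dist P.o z')) (lam_le _ _ _) (hw0.nrm_nn v) (hw0.nrm_le v)
      hl hn
    linarith
  · rw [gl_inr, gl_inr]
    by_cases hc : dist P.o z ≤ π.T - π.a - β
    · rw [lam_one π.ha (by linarith), lam_one π.ha (by linarith), sub_self, zero_mul, zero_mul,
        sub_self, abs_zero]
      exact hε0.le
    · push Not at hc
      have hy1 : π.t + 1 ≤ dist P.o z := by linarith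
      have hy2 : π.t + 1 ≤ dist P.o z' := by linarith
      have hd : 0 < dist P.o z := by linarith
      have hd' : 0 < dist P.o z' := by linarith
      have key : ∀ s, 0 ≤ s → s ≤ dist P.o z → s ≤ dist P.o z' →
          dist (P.c P.o z (s / dist P.o z)) (P.c P.o z' (s / dist P.o z')) ≤ δ := by
        intro s hs0 hs1 hs2
        have q0 : 0 ≤ s / dist P.o z := by positivity
        have q1 : s / dist P.o z ≤ 1 := by rw [div_le_one hd]; exact hs1
        have e1 := P.cvr P.o z z' _ q0 q1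
        have e2 := P.len P.o z' (s / dist P.o z) (s / dist P.o z') q0 q1 (by positivity)
          (by rw [div_le_one hd']; exact hs2)
        have e3 : |s / dist P.o z - s / dist P.o z'| * dist P.o z' =
            s / dist P.o z * |dist P.o z - dist P.o z'| := by
          have : s / dist P.o z - s / dist P.o z' =
              -(s / dist P.o z * (dist P.o z - dist P.o z')) / dist P.o z' := by
            field_simp
            ring
          rw [this, abs_div, abs_of_pos hd', div_mul_cancel₀ _ hd'.ne', abs_neg, abs_mul,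
            abs_of_nonneg q0]
        rw [e3] at e2
        have e4 : s / dist P.o z * dist z z' ≤ dist z z' :=
          mul_le_of_le_one_left dist_nonneg q1
        have e5 : s / dist P.o z * |dist P.o z - dist P.o z'| ≤ dist z z' :=
          (mul_le_of_le_one_left (abs_nonneg _) q1).trans hτ
        calc dist (P.c P.o z (s / dist P.o z)) (P.c P.o z' (s / dist P.o z'))
            ≤ dist (P.c P.o z (s / dist P.o z)) (P.c P.o z' (s / dist P.o z)) +
              dist (P.c P.o z' (s / dist P.o z)) (P.c P.o z' (s / dist P.o z')) :=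
              dist_triangle _ _ _
          _ ≤ _ := by rw [e2]; linarith
      have hw := h.wtS π.ht hy1
      have hw' := h.wtS π.ht hy2
      have hn := hw.nrm_sub hw' (ε := ε) (fun u => h.uni _ _ _ _ (dist_seg P ht hy1)
        (dist_seg P ht hy2) (key _ ht (by linarith) (by linarith))
        (key _ (by linarith) hy1 hy2) u) v
      have := prod_sub (l := 1 - lam π.T π.a (dist P.o z)) (l' := 1 - lam π.T π.a (dist P.o z'))
        (sub_nonneg.2 (lam_le _ _ _)) (by have := lam_nn π.T π.a (dist P.o z'); linarith)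
        (hw.nrm_nn v) (hw.nrm_le v) (e₁ := ε₀ / 2)
        (by rw [sub_sub_sub_cancel_left, abs_sub_comm]; exact hl) hn
      linarith

end Pool.Agent.ZE
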