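import Pool.Agent.Lib.MP_8f66f0_al_ZE.Est

/-! Project ZERO, part E: almost equivariance and the theorem. -/

set_option autoImplicit false

namespace Pool.Agent.ZE

open Pool.Agent.Wald Pool.Agent.Ind Pool.Agent.WaldL Pool.Agent.FH Pool.Agent.ZT1 Topology
open Pool.Agent.ZT2 (SCx)

/-- The maximum norm at scale `ε₀`. -/
def met (G V : Type) [Group G] [MulAction G V] (ε₀ : ℝ) (h : 0 ≤ ε₀) : Met G (RPt V) where
  near r x y := ∀ v, |x v - y v| ≤ r * ε₀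
  refl r x v := by
    rw [sub_self, abs_zero]
    positivity
  symm {r x y} hxy v := by
    rw [abs_sub_comm]
    exact hxy v
  trans {r s x y z} hxy hyz v := by
    have h1 := abs_sub_le (x v) (y v) (z v)
    have h2 := hxy v
    have h3 := hyz v
    push_cast
    linarith
  mono {r s x y} hrs hxy v := by
    refine (hxy v).trans (mul_le_mul_of_nonneg_right ?_ h)
    exact_mod_cast hrs
  inv {r x y} g hxy v := hxy (g⁻¹ • v)

variable {G Y : Type} [Group G] [MulAction G Y] [MetricSpace Y] {D : ℕ}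
  {V₀ V : Type} [MulAction G V₀] [MulAction G V]
  {P : Geo G Y D} {w₀ : V₀ → Y → ℝ} {w : V → Y → Y → ℝ} {M₀ M : ℕ} {α ε δ : ℝ}

/-- The hypotheses on the parameters. -/
structure Ok (P : Geo G Y D) (M : ℕ) (α ε δ : ℝ) (π : Par) (β ε₀ : ℝ) (S : Set G) : Prop where
  hβ0 : 0 < β
  hβ : ∀ g ∈ S, dist P.o (g • P.o) ≤ β
  hε : 0 ≤ ε
  hδ0 : 0 < δ
  hα : β ≤ α
  ht : β ≤ π.t
  htT : π.t + 1 + 2 * β ≤ π.T - π.a
  hδ : 2 * β * (π.T + 2 * β - π.t) ≤ δ * (π.t + 1)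
  he : 2 * (β / π.a + 2 * (2 * M + 1) * ε) ≤ ε₀
  he0 : 0 < ε₀

/-- Part (2) of almost equivariance. -/
theorem step (h0 : Thin P V₀ M₀ w₀) (h : LT P V M α ε δ w) {π : Par} {β ε₀ : ℝ} {S : Set G}
    (ok : Ok P M α ε δ π β ε₀ S) {g : G} (hg : g ∈ S) {z : Y}
    (hz : dist P.o z ≤ π.T + β) (x : V₀ ⊕ V) :
    |gl P w₀ w π (g • P.o) (g • z) x - gl P w₀ w π P.o (g • z) x| ≤
      β / π.a + 2 * (2 * M + 1) * ε := by
  refine gl_sub h0 h π ok.hβ0.le ok.hε ?_ ok.hα ok.ht ok.htT ?_ ok.hδ x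
  · rw [dist_comm]
    exact ok.hβ g hg
  · rw [P.iso]
    have := ok.hβ0
    linarith

theorem alm (h0 : Thin P V₀ M₀ w₀) (h : LT P V M α ε δ w) {π : Par} {β ε₀ : ℝ} {S : Set G}
    (ok : Ok P M α ε δ π β ε₀ S) :
    AlmEq (met G (V₀ ⊕ V) ε₀ ok.he0.le) 1 (P.hact π.T π.T_pos) S
      (fun u => gl P w₀ w π P.o (P.e u)) := by
  have hβ0 := ok.hβ0
  have he := ok.he
  have he' : β / π.a + 2 * (2 * M + 1) * ε ≤ ε₀ / 2 := by linarith
  have hba : 0 ≤ β / π.a := div_nonneg hβ0.le π.ha.le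
  have he0 := ok.he0
  refine ⟨?_, ?_, ?_⟩
  · intro x
    have hM : (2 * (M : ℝ) + 1) * ε ≤ ε₀ / 2 := by
      have : 0 ≤ (2 * (M : ℝ) + 1) * ε := mul_nonneg (by positivity) ok.hε
      linarith
    obtain ⟨r, hr0, hr⟩ := gl_cont h0 h π hβ0 ok.hε ok.hδ0 ok.htT (P.rr π.T (P.e x)) he0 hM
    have hc : Continuous fun y : Fin D → ℝ => P.rr π.T (P.e y) :=
      (P.rr_continuous π.T_pos).comp P.e.continuous
    have hev : ∀ᶠ y in 𝓝 x, dist (P.rr π.T (P.e x)) (P.rr π.T (P.e y)) ≤ r := by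
      have h1 := hc.tendsto x
      have h2 := h1.eventually (Metric.closedBall_mem_nhds (P.rr π.T (P.e x)) hr0)
      filter_upwards [h2] with y hy
      rw [dist_comm]
      exact hy
    filter_upwards [hev] with y hy v
    change |gl P w₀ w π P.o (P.e (P.e.symm (P.rr π.T (P.e x)))) v -
      gl P w₀ w π P.o (P.e (P.e.symm (P.rr π.T (P.e y)))) v| ≤ _
    rw [Homeomorph.apply_symm_apply, Homeomorph.apply_symm_apply, Nat.cast_one, one_mul]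
    exact hr _ hy v
  · intro g hg x v
    change |gl P w₀ w π P.o (P.e (P.e.symm (P.rr π.T (P.e x)))) v -
      gl P w₀ w π P.o (P.e (P.e.symm (P.rr π.T (g • P.rr π.T (P.e x))))) (g⁻¹⁻¹ • v)| ≤ _
    rw [Homeomorph.apply_symm_apply, Homeomorph.apply_symm_apply, Nat.cast_one, one_mul, inv_inv,
      gl_rr π (g • P.rr π.T (P.e x))]
    have hz : dist P.o (P.rr π.T (P.e x)) ≤ π.T + β := by
      have := P.rr_dist_le π.T_pos (P.e x)
      linarith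
    have h1 := step h0 h ok hg hz (g • v)
    rw [gl_smul h0 h, smul_apply, inv_smul_smul] at h1
    refine le_trans h1 ?_
    linarith
  · intro g hg k hk s x _ _ v
    change |gl P w₀ w π P.o (P.e (P.e.symm (P.rr π.T (P.e x)))) v -
      gl P w₀ w π P.o (P.e (P.e.symm (P.rr π.T (g • P.pth π.T (k • P.rr π.T (P.e x)) s))))
        ((g * k)⁻¹⁻¹ • v)| ≤ _
    rw [Homeomorph.apply_symm_apply, Homeomorph.apply_symm_apply, Nat.cast_one, one_mul, inv_inv,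
      gl_rr π (g • P.pth π.T (k • P.rr π.T (P.e x)) s)]
    obtain ⟨z, hze⟩ : ∃ z, z = P.rr π.T (P.e x) := ⟨_, rfl⟩
    rw [← hze]
    have hz0 : dist P.o z ≤ π.T := by
      rw [hze]
      exact P.rr_dist_le π.T_pos (P.e x)
    have hz : dist P.o z ≤ π.T + β := by linarith
    have hkz : dist P.o (k • z) ≤ π.T + β := by
      have h1 := dist_triangle P.o (k • P.o) (k • z)
      rw [P.iso] at h1
      have h2 := ok.hβ k hk
      linarith
    have h1 := step h0 h ok hk hz (k • v)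
    rw [gl_smul h0 h, smul_apply, inv_smul_smul] at h1
    have hq : dist P.o (P.pth π.T (k • z) s) ≤ π.T + β := (pth_dist π (k • z) s).trans hkz
    have h2 := step h0 h ok hg hq ((g * k) • v)
    rw [gl_smul h0 h, smul_apply, gl_pth, mul_smul, inv_smul_smul, ← mul_smul] at h2
    have h3 := abs_sub_le (gl P w₀ w π P.o z v) (gl P w₀ w π P.o (k • z) (k • v))
      (gl P w₀ w π P.o (g • P.pth π.T (k • z) s) ((g * k) • v))
    refine h3.trans ((add_le_add h1 h2).trans ?_)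
    linarith

/-- The choice of the parameters. -/
theorem exists_par (M : ℕ) {β ε₀ : ℝ} (hβ : 0 < β) (hε₀ : 0 < ε₀) :
    ∃ ε : ℝ, 0 < ε ∧ ∀ δ : ℝ, 0 < δ → ∃ π : Par, β ≤ π.t ∧ π.t + 1 + 2 * β ≤ π.T - π.a ∧
      2 * β * (π.T + 2 * β - π.t) ≤ δ * (π.t + 1) ∧
      2 * (β / π.a + 2 * (2 * M + 1) * ε) ≤ ε₀ := by
  have hM : (0 : ℝ) < 2 * M + 1 := by positivity
  refine ⟨ε₀ / (8 * (2 * M + 1)), by positivity, fun δ hδ => ?_⟩
  have ha : 0 < 4 * β / ε₀ := by positivity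
  have ht : 0 ≤ max β (2 * β * (4 * β / ε₀ + 4 * β + 1) / δ) := hβ.le.trans (le_max_left _ _)
  refine ⟨⟨max β (2 * β * (4 * β / ε₀ + 4 * β + 1) / δ) + 1 + 2 * β + 4 * β / ε₀, 4 * β / ε₀,
    max β (2 * β * (4 * β / ε₀ + 4 * β + 1) / δ), ha, ht, by linarith⟩, le_max_left _ _, ?_, ?_, ?_⟩
  · change max β (2 * β * (4 * β / ε₀ + 4 * β + 1) / δ) + 1 + 2 * β ≤
      max β (2 * β * (4 * β / ε₀ + 4 * β + 1) / δ) + 1 + 2 * β + 4 * β / ε₀ - 4 * β / ε₀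
    linarith
  · change 2 * β * (max β (2 * β * (4 * β / ε₀ + 4 * β + 1) / δ) + 1 + 2 * β + 4 * β / ε₀ +
      2 * β - max β (2 * β * (4 * β / ε₀ + 4 * β + 1) / δ)) ≤
      δ * (max β (2 * β * (4 * β / ε₀ + 4 * β + 1) / δ) + 1)
    have h1 : 2 * β * (4 * β / ε₀ + 4 * β + 1) / δ ≤
        max β (2 * β * (4 * β / ε₀ + 4 * β + 1) / δ) := le_max_right _ _
    rw [div_le_iff₀ hδ] at h1
    have h2 : max β (2 * β * (4 * β / ε₀ + 4 * β + 1) / δ) + 1 + 2 * β + 4 * β / ε₀ +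
      2 * β - max β (2 * β * (4 * β / ε₀ + 4 * β + 1) / δ) = 4 * β / ε₀ + 4 * β + 1 := by ring
    rw [h2]
    linarith
  · change 2 * (β / (4 * β / ε₀) + 2 * (2 * M + 1) * (ε₀ / (8 * (2 * M + 1)))) ≤ ε₀
    have h1 : β / (4 * β / ε₀) = ε₀ / 4 := by
      field_simp
    have h2 : 2 * (2 * (M : ℝ) + 1) * (ε₀ / (8 * (2 * M + 1))) = ε₀ / 4 := by
      field_simp
      ring
    rw [h1, h2]
    linarith

/-- A finite symmetric set containing the supports. -/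
theorem exists_supp {L G : Type} [CommRing L] [Group G] {n : Type} [Fintype n]
    (A B : Matrix n n (MonoidAlgebra L G)) : ∃ S : Set G, S.Finite ∧ (1 : G) ∈ S ∧
      (∀ g ∈ S, g⁻¹ ∈ S) ∧ (∀ i j g, (A i j).coeff g ≠ 0 → g ∈ S) ∧
      (∀ i j g, (B i j).coeff g ≠ 0 → g ∈ S) := by
  let F : Set G := ⋃ i : n, ⋃ j : n, ({g | (A i j).coeff g ≠ 0} ∪ {g | (B i j).coeff g ≠ 0})
  have hF : F.Finite := by
    refine Set.finite_iUnion fun i => Set.finite_iUnion fun j => ?_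
    refine Set.Finite.union ?_ ?_
    · exact (A i j).coeff.hasFiniteSupport
    · exact (B i j).coeff.hasFiniteSupport
  have hA : ∀ i j g, (A i j).coeff g ≠ 0 → g ∈ F := fun i j g h =>
    Set.mem_iUnion.2 ⟨i, Set.mem_iUnion.2 ⟨j, Or.inl h⟩⟩
  have hB : ∀ i j g, (B i j).coeff g ≠ 0 → g ∈ F := fun i j g h =>
    Set.mem_iUnion.2 ⟨i, Set.mem_iUnion.2 ⟨j, Or.inr h⟩⟩
  refine ⟨F ∪ F⁻¹ ∪ {1}, (hF.union hF.inv).union (Set.finite_singleton 1), Or.inr rfl, ?_, ?_, ?_⟩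
  · rintro g ((hg | hg) | hg)
    · refine Or.inl (Or.inr ?_)
      rw [Set.mem_inv, inv_inv]
      exact hg
    · exact Or.inl (Or.inl hg)
    · rw [Set.mem_singleton_iff] at hg
      rw [hg, inv_one]
      exact Or.inr rfl
  · exact fun i j g h => Or.inl (Or.inl (hA i j g h))
  · exact fun i j g h => Or.inl (Or.inl (hB i j g h))

/-- **Part E.** -/
theorem tE : S_E := by
  intro hT1 hT2 G Y _ _ _ D P hth hlt L _ _ hL K _ κ hκ n _ _ A hA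
  classical
  obtain ⟨M₀, V₀, _, w₀, h0⟩ := hth
  obtain ⟨M, hlt⟩ := hlt
  obtain ⟨K₁, hK₁⟩ := hT1 D
  obtain ⟨ε₂, hε₂, hT2'⟩ := hT2 (M₀ + M)
  obtain ⟨B, hAB, hBA⟩ : ∃ B, A * B = 1 ∧ B * A = 1 := by
    obtain ⟨u, hu⟩ := hA
    exact ⟨u⁻¹.1, by rw [← hu]; exact u.mul_inv, by rw [← hu]; exact u.inv_mul⟩
  obtain ⟨S, hSf, hS1, hSi, hSA, hSB⟩ := exists_supp A B
  -- the constants
  obtain ⟨β, hβ0, hβ⟩ : ∃ β : ℝ, 0 < β ∧ ∀ g ∈ S, dist P.o (g • P.o) ≤ β := by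
    obtain ⟨b, hb⟩ := (hSf.image fun g => dist P.o (g • P.o)).bddAbove
    refine ⟨max 1 b, by positivity, fun g hg => ?_⟩
    exact (hb (Set.mem_image_of_mem _ hg)).trans (le_max_right _ _)
  have hε₀ : 0 < ε₂ / (K₁ + 1) := by positivity
  obtain ⟨ε, hε, hpar⟩ := exists_par M hβ0 hε₀
  obtain ⟨V, _, w, δ, hδ, h⟩ := hlt β ε hβ0 hε
  obtain ⟨π, p1, p2, p3, p4⟩ := hpar δ hδ
  have ok : Ok P M β ε δ π β (ε₂ / (K₁ + 1)) S :=
    ⟨hβ0, hβ, hε.le, hδ, le_rfl, p1, p2, p3, p4, hε₀⟩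
  obtain ⟨m, _, _, q, a, b, hab, hba, ha, hb, hκa⟩ := hK₁ L G (RPt (V₀ ⊕ V))
    (met G (V₀ ⊕ V) _ ok.he0.le) 1 (P.hact π.T π.T_pos) S _ hSf hS1 hSi (alm h0 h ok) n A B hAB hBA
    hSA hSB
  have hle : ((K₁ * 1 : ℕ) : ℝ) * (ε₂ / (K₁ + 1)) ≤ ε₂ := by
    rw [mul_one, mul_div_assoc', div_le_iff₀ (by positivity)]
    nlinarith
  have := hT2' G (V₀ ⊕ V) (Sx w₀ w) (sx_cx h0 h) (sx_stab h0 h) L hL m m
    (fun i => gl P w₀ w π P.o (P.e ((P.hact π.T π.T_pos).ρ (q i))))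
    (fun i => gl P w₀ w π P.o (P.e ((P.hact π.T π.T_pos).ρ (q i)))) a b
    (fun i => gl_pt h0 h π _ _) (fun i => gl_pt h0 h π _ _) hab hba
    (fun i k γ hne v => (ha i k γ hne v).trans hle)
    (fun i k γ hne v => (hb i k γ hne v).trans hle) K κ hκ (Equiv.refl m)
  rw [← hκa K κ hκ]
  exact this

end Pool.Agent.ZE
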