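import Pool.Agent.Lib.MP_8f66f0_al_ZE.Defs

/-! Project ZERO, part E: normalization of families of functions. -/

set_option autoImplicit false

namespace Pool.Agent.ZE

/-- At most `M` non-zero values, one of them is `1`. -/
structure Wt {V : Type} (M : ℕ) (w : V → ℝ) : Prop where
  nn : ∀ v, 0 ≤ w v
  le1 : ∀ v, w v ≤ 1
  fin : ∃ s : Finset V, s.card ≤ M ∧ ∀ v, w v ≠ 0 → v ∈ s
  one : ∃ v, w v = 1

/-- The normalized values. -/
noncomputable def nrm {V : Type} (w : V → ℝ) (v : V) : ℝ := w v / ∑ᶠ u, w u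

theorem finsum_eq {V : Type} {w : V → ℝ} {s : Finset V} (hs : ∀ v, w v ≠ 0 → v ∈ s) :
    ∑ᶠ u, w u = ∑ u ∈ s, w u :=
  finsum_eq_sum_of_support_subset w fun v hv => hs v hv

namespace Wt

variable {V : Type} {M : ℕ} {w w' : V → ℝ}

theorem sum_ge (h : Wt M w) : 1 ≤ ∑ᶠ u, w u := by
  obtain ⟨s, -, hs⟩ := h.fin
  obtain ⟨v, hv⟩ := h.one
  rw [finsum_eq hs, ← hv]
  exact Finset.single_le_sum (fun u _ => h.nn u) (hs v (by rw [hv]; exact one_ne_zero))

theorem nrm_nn (h : Wt M w) (v : V) : 0 ≤ nrm w v :=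
  div_nonneg (h.nn v) (zero_le_one.trans h.sum_ge)

theorem nrm_le (h : Wt M w) (v : V) : nrm w v ≤ 1 := by
  rw [nrm, div_le_one (zero_lt_one.trans_le h.sum_ge)]
  exact (h.le1 v).trans h.sum_ge

theorem nrm_ne (h : Wt M w) {v : V} : nrm w v ≠ 0 ↔ w v ≠ 0 := by
  rw [nrm, Ne, div_eq_zero_iff, not_or]
  exact ⟨fun h' => h'.1, fun h' => ⟨h', (zero_lt_one.trans_le h.sum_ge).ne'⟩⟩

theorem nrm_sum (h : Wt M w) {s : Finset V} (hs : ∀ v, w v ≠ 0 → v ∈ s) :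
    ∑ v ∈ s, nrm w v = 1 := by
  simp only [nrm]
  rw [← Finset.sum_div, ← finsum_eq hs]
  exact div_self (zero_lt_one.trans_le h.sum_ge).ne'

theorem sum_sub (h : Wt M w) (h' : Wt M w') {ε : ℝ} (hε : ∀ v, |w v - w' v| ≤ ε) :
    |∑ᶠ u, w u - ∑ᶠ u, w' u| ≤ 2 * M * ε := by
  classical
  obtain ⟨s, hc, hs⟩ := h.fin
  obtain ⟨s', hc', hs'⟩ := h'.fin
  rw [finsum_eq (s := s ∪ s') fun v hv => Finset.mem_union_left _ (hs v hv),
    finsum_eq (s := s ∪ s') fun v hv => Finset.mem_union_right _ (hs' v hv),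
    ← Finset.sum_sub_distrib]
  have hε0 : 0 ≤ ε := by
    obtain ⟨v, -⟩ := h.one
    exact (abs_nonneg _).trans (hε v)
  refine (Finset.abs_sum_le_sum_abs _ _).trans ?_
  refine (Finset.sum_le_sum fun u _ => hε u).trans ?_
  rw [Finset.sum_const, nsmul_eq_mul]
  refine mul_le_mul_of_nonneg_right ?_ hε0
  have h1 : (s ∪ s').card ≤ 2 * M := (Finset.card_union_le s s').trans (by omega)
  exact_mod_cast h1

/-- Normalization is Lipschitz for the maximum norm. -/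
theorem nrm_sub (h : Wt M w) (h' : Wt M w') {ε : ℝ} (hε : ∀ v, |w v - w' v| ≤ ε) (v : V) :
    |nrm w v - nrm w' v| ≤ (2 * M + 1) * ε := by
  have hS := h.sum_ge
  have hS' := h'.sum_ge
  have hd := h.sum_sub h' hε
  have hn := h'.nrm_nn v
  have hn1 := h'.nrm_le v
  obtain ⟨S, hSe⟩ : ∃ S, S = ∑ᶠ u, w u := ⟨_, rfl⟩
  obtain ⟨S', hSe'⟩ : ∃ S', S' = ∑ᶠ u, w' u := ⟨_, rfl⟩
  rw [← hSe] at hS hd
  rw [← hSe'] at hS' hd
  have e1 : nrm w v - nrm w' v = (w v - w' v) / S + nrm w' v * ((S' - S) / S) := by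
    rw [nrm, nrm, ← hSe, ← hSe']
    have h1 : S ≠ 0 := (zero_lt_one.trans_le hS).ne'
    have h2 : S' ≠ 0 := (zero_lt_one.trans_le hS').ne'
    field_simp
    ring
  have hS0 : 0 < S := zero_lt_one.trans_le hS
  rw [e1]
  refine (abs_add_le _ _).trans ?_
  rw [abs_div, abs_mul, abs_div, abs_of_pos hS0, abs_of_nonneg hn]
  have e2 : |w v - w' v| / S ≤ ε := (div_le_self (abs_nonneg _) hS).trans (hε v)
  have e3 : |S' - S| / S ≤ 2 * M * ε := by
    rw [abs_sub_comm]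
    exact (div_le_self (abs_nonneg _) hS).trans hd
  have e4 : nrm w' v * (|S' - S| / S) ≤ 2 * M * ε := by
    refine le_trans ?_ e3
    exact mul_le_of_le_one_left (div_nonneg (abs_nonneg _) hS0.le) hn1
  linarith

end Wt

theorem nrm_equiv {V : Type} (w : V → ℝ) (σ : Equiv.Perm V) (v : V) :
    nrm (fun u => w (σ u)) v = nrm w (σ v) := by
  rw [nrm, nrm]
  congr 1
  exact finsum_comp_equiv σ

end Pool.Agent.ZE
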