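import Pool.Agent.Lib.MP_8f66f0_al_ZE.Defs

/-! Project ZERO, part E: the radial retraction and the homotopy action. -/

set_option autoImplicit false

namespace Pool.Agent.ZE

open Pool.Agent.ZT1 Topology

/-- The parameter of the retraction. -/
noncomputable def rat (q d : ℝ) : ℝ := q / max q d

theorem rat_pos {q : ℝ} (hq : 0 < q) (d : ℝ) : 0 < rat q d :=
  div_pos hq (lt_max_of_lt_left hq)

theorem rat_le {q : ℝ} (hq : 0 < q) (d : ℝ) : rat q d ≤ 1 := by
  rw [rat, div_le_one (lt_max_of_lt_left hq)]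
  exact le_max_left _ _

theorem rat_of_le {q d : ℝ} (hq : 0 < q) (h : d ≤ q) : rat q d = 1 := by
  rw [rat, max_eq_left h, div_self hq.ne']

theorem rat_of_ge {q d : ℝ} (h : q ≤ d) : rat q d = q / d := by
  rw [rat, max_eq_right h]

theorem rat_mul_le {q d : ℝ} (hq : 0 < q) (hd : 0 ≤ d) : rat q d * d ≤ q := by
  rcases le_total d q with h | h
  · rw [rat_of_le hq h, one_mul]
    exact h
  · rw [rat_of_ge h, div_mul_cancel₀ _ (hq.trans_le h).ne']

theorem rat_continuous {q : ℝ} (hq : 0 < q) : Continuous (rat q) :=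
  continuous_const.div (continuous_const.max continuous_id)
    fun _ => (lt_max_of_lt_left hq).ne'

namespace Geo

variable {G Y : Type} [Group G] [MulAction G Y] [MetricSpace Y] {D : ℕ} (P : Geo G Y D)

theorem dist_c (y z : Y) {s : ℝ} (h0 : 0 ≤ s) (h1 : s ≤ 1) :
    dist y (P.c y z s) = s * dist y z := by
  have h := P.len y z 0 s le_rfl zero_le_one h0 h1
  rw [P.c0, zero_sub, abs_neg, abs_of_nonneg h0] at h
  exact h

include P in
theorem smul_continuous (g : G) : Continuous fun y : Y => g • y :=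
  (Isometry.of_dist_eq (P.iso g)).continuous

theorem rr_def (q : ℝ) (z : Y) : P.rr q z = P.c P.o z (rat q (dist P.o z)) := rfl

theorem rr_of_le {q : ℝ} (hq : 0 < q) {z : Y} (h : dist P.o z ≤ q) : P.rr q z = z := by
  rw [rr_def, rat_of_le hq h, P.c1]

theorem rr_dist_le {q : ℝ} (hq : 0 < q) (z : Y) : dist P.o (P.rr q z) ≤ q := by
  rw [rr_def, P.dist_c _ _ (rat_pos hq _).le (rat_le hq _)]
  exact rat_mul_le hq dist_nonneg

theorem rr_dist_le' {q : ℝ} (hq : 0 < q) (z : Y) : dist P.o (P.rr q z) ≤ dist P.o z := by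
  rw [rr_def, P.dist_c _ _ (rat_pos hq _).le (rat_le hq _)]
  exact mul_le_of_le_one_left dist_nonneg (rat_le hq _)

theorem rr_rr {q : ℝ} (hq : 0 < q) (z : Y) : P.rr q (P.rr q z) = P.rr q z :=
  P.rr_of_le hq (P.rr_dist_le hq z)

/-- The retraction of a point of the segment from `o` to `z` outside the ball. -/
theorem rr_c {q : ℝ} (hq : 0 < q) (z : Y) {s : ℝ} (h0 : 0 ≤ s) (h1 : s ≤ 1)
    (h : q ≤ s * dist P.o z) : P.rr q (P.c P.o z s) = P.rr q z := by
  have hd : q ≤ dist P.o z := h.trans (mul_le_of_le_one_left dist_nonneg h1)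
  have hd0 : 0 < dist P.o z := hq.trans_le hd
  have hs0 : 0 < s := by
    rcases h0.lt_or_eq with h2 | h2
    · exact h2
    · rw [← h2, zero_mul] at h
      linarith
  have e1 : dist P.o (P.c P.o z s) = s * dist P.o z := P.dist_c _ _ h0 h1
  rw [rr_def, rr_def, e1, rat_of_ge h, rat_of_ge hd, P.cons _ _ _ _ h0 h1]
  · congr 1
    field_simp
  · positivity
  · rw [div_le_one (by positivity)]
    exact h

theorem k_continuous : Continuous fun p : Y × ℝ => P.c P.o p.1 (cl p.2) := by
  rw [continuous_iff_continuousAt]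
  rintro ⟨z, s⟩
  rw [ContinuousAt, tendsto_iff_dist_tendsto_zero]
  have hle : ∀ p : Y × ℝ, dist (P.c P.o p.1 (cl p.2)) (P.c P.o z (cl s)) ≤
      dist p.1 z + |p.2 - s| * dist P.o z := by
    intro p
    have e1 := P.cvr P.o p.1 z (cl p.2) (cl_nn _) (cl_le _)
    have e2 := P.len P.o z (cl p.2) (cl s) (cl_nn _) (cl_le _) (cl_nn _) (cl_le _)
    have e3 : cl p.2 * dist p.1 z ≤ dist p.1 z := mul_le_of_le_one_left dist_nonneg (cl_le _)
    have e4 : |cl p.2 - cl s| * dist P.o z ≤ |p.2 - s| * dist P.o z :=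
      mul_le_mul_of_nonneg_right (cl_abs _ _) dist_nonneg
    calc dist (P.c P.o p.1 (cl p.2)) (P.c P.o z (cl s))
        ≤ dist (P.c P.o p.1 (cl p.2)) (P.c P.o z (cl p.2)) +
          dist (P.c P.o z (cl p.2)) (P.c P.o z (cl s)) := dist_triangle _ _ _
      _ ≤ _ := by rw [e2]; linarith
  have ht : Filter.Tendsto (fun p : Y × ℝ => dist p.1 z + |p.2 - s| * dist P.o z) (𝓝 (z, s))
      (𝓝 0) := by
    have hc : Continuous fun p : Y × ℝ => dist p.1 z + |p.2 - s| * dist P.o z := by fun_prop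
    have := hc.tendsto (z, s)
    simpa using this
  exact squeeze_zero (fun _ => dist_nonneg) hle ht

theorem rr_continuous {q : ℝ} (hq : 0 < q) : Continuous (P.rr q) := by
  have h : P.rr q = fun z => P.c P.o z (cl (rat q (dist P.o z))) := by
    funext z
    rw [cl_of_mem (rat_pos hq _).le (rat_le hq _)]
    rfl
  rw [h]
  exact P.k_continuous.comp
    (continuous_id.prodMk ((rat_continuous hq).comp (continuous_const.dist continuous_id)))

theorem e_zero : P.e 0 = P.o := by
  have h := P.es 0 0 le_rfl zero_le_one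
  rwa [zero_smul, P.c0] at h

theorem bdd (T : ℝ) : ∃ c : ℝ, ∀ u : Fin D → ℝ, dist P.o (P.e u) ≤ T → ∀ i, |u i| ≤ c := by
  by_cases hS : (Metric.sphere (0 : Fin D → ℝ) 1).Nonempty
  · have hc : IsCompact (Metric.sphere (0 : Fin D → ℝ) 1) := isCompact_sphere _ _
    have hcont : Continuous fun u : Fin D → ℝ => dist P.o (P.e u) :=
      continuous_const.dist P.e.continuous
    obtain ⟨u₀, hu₀, hmin⟩ := hc.exists_isMinOn hS hcont.continuousOn
    have hu₀' : ‖u₀‖ = 1 := by simpa using hu₀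
    have hm : 0 < dist P.o (P.e u₀) := by
      rw [dist_pos]
      intro h
      rw [← P.e_zero] at h
      have := P.e.injective h
      rw [← this, norm_zero] at hu₀'
      exact zero_ne_one hu₀'
    refine ⟨max 1 (T / dist P.o (P.e u₀)), fun u hu i => ?_⟩
    have h1 : |u i| ≤ ‖u‖ := norm_le_pi_norm u i
    refine h1.trans ?_
    by_cases hn : ‖u‖ ≤ 1
    · exact hn.trans (le_max_left _ _)
    · push Not at hn
      refine le_trans ?_ (le_max_right _ _)
      have hn0 : 0 < ‖u‖ := zero_lt_one.trans hn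
      have h2 : ‖u‖⁻¹ • u ∈ Metric.sphere (0 : Fin D → ℝ) 1 := by
        rw [mem_sphere_zero_iff_norm, norm_smul, norm_inv, norm_norm, inv_mul_cancel₀ hn0.ne']
      have h3 : dist P.o (P.e u₀) ≤ dist P.o (P.e (‖u‖⁻¹ • u)) := hmin h2
      rw [P.es _ _ (inv_nonneg.2 hn0.le) (inv_le_one_of_one_le₀ hn.le),
        P.dist_c _ _ (inv_nonneg.2 hn0.le) (inv_le_one_of_one_le₀ hn.le)] at h3
      rw [le_div_iff₀ hm]
      have h4 : ‖u‖ * dist P.o (P.e u₀) ≤ ‖u‖ * (‖u‖⁻¹ * dist P.o (P.e u)) :=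
        mul_le_mul_of_nonneg_left h3 hn0.le
      rw [← mul_assoc, mul_inv_cancel₀ hn0.ne', one_mul] at h4
      exact h4.trans hu
  · refine ⟨0, fun u _ i => ?_⟩
    exfalso
    apply hS
    refine ⟨fun _ => 1, ?_⟩
    rw [mem_sphere_zero_iff_norm]
    have : Nonempty (Fin D) := ⟨i⟩
    rw [pi_norm_const]
    exact norm_one

/-- The parameter of the homotopy. -/
noncomputable def hp (T : ℝ) (z : Y) (s : ℝ) : ℝ :=
  rat T (dist P.o z) + cl s * (1 - rat T (dist P.o z))

theorem hp_ge {T : ℝ} (hT : 0 < T) (z : Y) (s : ℝ) : rat T (dist P.o z) ≤ P.hp T z s := by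
  have := mul_nonneg (cl_nn s) (sub_nonneg.2 (rat_le hT (dist P.o z)))
  rw [hp]
  linarith

theorem hp_nn {T : ℝ} (hT : 0 < T) (z : Y) (s : ℝ) : 0 ≤ P.hp T z s :=
  (rat_pos hT _).le.trans (P.hp_ge hT z s)

theorem hp_le {T : ℝ} (hT : 0 < T) (z : Y) (s : ℝ) : P.hp T z s ≤ 1 := by
  have := mul_le_mul_of_nonneg_right (cl_le s) (sub_nonneg.2 (rat_le hT (dist P.o z)))
  rw [hp]
  linarith

/-- The path from `rr T z` to `z`. -/
noncomputable def pth (T : ℝ) (z : Y) (s : ℝ) : Y := P.c P.o z (P.hp T z s)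

theorem pth_zero (T : ℝ) (z : Y) : P.pth T z 0 = P.rr T z := by
  rw [pth, hp, cl_of_le le_rfl, zero_mul, add_zero]
  rfl

theorem pth_one (T : ℝ) (z : Y) : P.pth T z 1 = z := by
  rw [pth, hp, cl_of_ge le_rfl, one_mul, add_sub_cancel, P.c1]

theorem pth_continuous {T : ℝ} (hT : 0 < T) {X : Type} [TopologicalSpace X] {f : X → Y} {s : X → ℝ}
    (hf : Continuous f) (hs : Continuous s) : Continuous fun x => P.pth T (f x) (s x) := by
  have h : (fun x => P.pth T (f x) (s x)) = fun x => P.c P.o (f x) (cl (P.hp T (f x) (s x))) := by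
    funext x
    rw [cl_of_mem (P.hp_nn hT _ _) (P.hp_le hT _ _)]
    rfl
  rw [h]
  have hr : Continuous fun x => rat T (dist P.o (f x)) :=
    (rat_continuous hT).comp (continuous_const.dist hf)
  exact P.k_continuous.comp
    (hf.prodMk (hr.add ((cl_continuous.comp hs).mul (continuous_const.sub hr))))

/-- The homotopy action on the ball of radius `T`. -/
noncomputable def hact (T : ℝ) (hT : 0 < T) : HAct G D where
  ρ u := P.e.symm (P.rr T (P.e u))
  φ g u := P.e.symm (P.rr T (g • P.rr T (P.e u)))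
  H g h s u := P.e.symm (P.rr T (g • P.pth T (h • P.rr T (P.e u)) s))
  contρ := P.e.symm.continuous.comp ((P.rr_continuous hT).comp P.e.continuous)
  contφ g := P.e.symm.continuous.comp ((P.rr_continuous hT).comp
    ((P.smul_continuous g).comp ((P.rr_continuous hT).comp P.e.continuous)))
  contH g h := P.e.symm.continuous.comp ((P.rr_continuous hT).comp
    ((P.smul_continuous g).comp (P.pth_continuous hT ((P.smul_continuous h).comp
      ((P.rr_continuous hT).comp (P.e.continuous.comp continuous_snd))) continuous_fst)))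
  bdd := by
    obtain ⟨c, hc⟩ := P.bdd T
    refine ⟨c, fun x i => hc _ ?_ i⟩
    rw [Homeomorph.apply_symm_apply]
    exact P.rr_dist_le hT _
  seg x s h0 h1 := by
    have hk0 := (rat_pos hT (dist P.o (P.e x))).le
    have hk1 := rat_le hT (dist P.o (P.e x))
    have hρ : P.e.symm (P.rr T (P.e x)) = rat T (dist P.o (P.e x)) • x := by
      rw [rr_def, ← P.es _ _ hk0 hk1, Homeomorph.symm_apply_apply]
    have hl : (1 - s) • x + s • P.e.symm (P.rr T (P.e x)) =
        (1 - s + s * rat T (dist P.o (P.e x))) • x := by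
      rw [hρ, smul_smul, add_smul]
    have hs0 : 0 ≤ s * rat T (dist P.o (P.e x)) := mul_nonneg h0 hk0
    have hs1 : s * rat T (dist P.o (P.e x)) ≤ s := mul_le_of_le_one_right h0 hk1
    have hl0 : 0 ≤ 1 - s + s * rat T (dist P.o (P.e x)) := by linarith
    have hl1 : 1 - s + s * rat T (dist P.o (P.e x)) ≤ 1 := by linarith
    rw [hl, P.es _ _ hl0 hl1]
    congr 1
    by_cases hd : dist P.o (P.e x) ≤ T
    · rw [rat_of_le hT hd]
      rw [show 1 - s + s * 1 = 1 by ring, P.c1]
    · push Not at hd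
      refine P.rr_c hT _ hl0 hl1 ?_
      have hd0 : 0 < dist P.o (P.e x) := hT.trans hd
      rw [rat_of_ge hd.le]
      have : (1 - s + s * (T / dist P.o (P.e x))) * dist P.o (P.e x) =
          (1 - s) * dist P.o (P.e x) + s * T := by
        field_simp
      rw [this]
      nlinarith
  φρ g x := by
    rw [Homeomorph.apply_symm_apply, P.rr_rr hT]
  ρφ g x := by
    rw [Homeomorph.apply_symm_apply, P.rr_rr hT]
  ρH g h s x := by
    rw [Homeomorph.apply_symm_apply, P.rr_rr hT]
  φ1 x := by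
    rw [one_smul, P.rr_rr hT]
  H0 g h x := by
    rw [P.pth_zero, Homeomorph.apply_symm_apply, P.rr_rr hT]
  H1 g h x := by
    rw [P.pth_one, mul_smul]

end Geo

end Pool.Agent.ZE
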