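import Pool.Agent.Lib.MP_8f66f0_al_ZE.Nrm
import Pool.Agent.Lib.MP_8f66f0_al_ZE.Rr

/-! Project ZERO, part E: the map to the join of the two complexes. -/

set_option autoImplicit false

namespace Pool.Agent.ZE

open Pool.Agent.ZT1 Pool.Agent.WaldL
open Pool.Agent.ZT2 (SCx)

variable {G Y : Type} [Group G] [MulAction G Y] [MetricSpace Y] {D : ℕ}
  {V₀ V : Type} [MulAction G V₀] [MulAction G V]

/-- The weight of the thin part. -/
noncomputable def lam (T a d : ℝ) : ℝ := cl ((T - d) / a)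

theorem lam_nn (T a d : ℝ) : 0 ≤ lam T a d := cl_nn _

theorem lam_le (T a d : ℝ) : lam T a d ≤ 1 := cl_le _

theorem lam_one {T a d : ℝ} (ha : 0 < a) (h : d ≤ T - a) : lam T a d = 1 := by
  refine cl_of_ge ?_
  rw [le_div_iff₀ ha]
  linarith

theorem lam_zero {T a d : ℝ} (ha : 0 < a) (h : T ≤ d) : lam T a d = 0 := by
  refine cl_of_le (div_nonpos_of_nonpos_of_nonneg ?_ ha.le)
  linarith

theorem lam_sub {T a d d' : ℝ} (ha : 0 < a) : |lam T a d - lam T a d'| ≤ |d - d'| / a := by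
  refine (cl_abs _ _).trans (le_of_eq ?_)
  rw [← sub_div, abs_div, abs_of_pos ha]
  congr 1
  rw [show T - d - (T - d') = -(d - d') by ring, abs_neg]

/-- The parameters. -/
structure Par where
  T : ℝ
  a : ℝ
  t : ℝ
  ha : 0 < a
  ht : 0 ≤ t
  htT : t + 1 ≤ T - a

theorem Par.T_pos (π : Par) : 0 < π.T := by
  have := π.ha
  have := π.ht
  have := π.htT
  linarith

variable (P : Geo G Y D) (w₀ : V₀ → Y → ℝ) (w : V → Y → Y → ℝ)

/-- The weights at the point of the flow space of the segment from `y` to `z` at time `t`. -/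
noncomputable def sgw (t : ℝ) (y z : Y) (v : V) : ℝ :=
  w v (P.c y z (t / dist y z)) (P.c y z ((t + 1) / dist y z))

/-- The map to the join. -/
noncomputable def gl (π : Par) (y z : Y) : RPt (V₀ ⊕ V) := fun x =>
  match x with
  | Sum.inl v => lam π.T π.a (dist y z) * nrm (fun u => w₀ u z) v
  | Sum.inr v => (1 - lam π.T π.a (dist y z)) * nrm (sgw P w π.t y z) v

theorem gl_inl (π : Par) (y z : Y) (v : V₀) :
    gl P w₀ w π y z (Sum.inl v) = lam π.T π.a (dist y z) * nrm (fun u => w₀ u z) v := rfl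

theorem gl_inr (π : Par) (y z : Y) (v : V) :
    gl P w₀ w π y z (Sum.inr v) =
      (1 - lam π.T π.a (dist y z)) * nrm (sgw P w π.t y z) v := rfl

theorem dist_seg {y z : Y} {t : ℝ} (h0 : 0 ≤ t) (h1 : t + 1 ≤ dist y z) :
    dist (P.c y z (t / dist y z)) (P.c y z ((t + 1) / dist y z)) = 1 := by
  have hd : 0 < dist y z := by linarith
  rw [P.len _ _ _ _ (by positivity) (by rw [div_le_one hd]; linarith) (by positivity)
    (by rw [div_le_one hd]; linarith), ← sub_div, abs_div, abs_of_pos hd,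
    div_mul_cancel₀ _ hd.ne']
  norm_num

theorem lt_dist {π : Par} {d : ℝ} (h : lam π.T π.a d ≠ 1) : π.t + 1 ≤ d := by
  by_contra hc
  push Not at hc
  exact h (lam_one π.ha (by have := π.htT; linarith))

variable {P w₀ w} {M₀ M : ℕ} {α ε δ : ℝ}

theorem Thin.wt (h : Thin P V₀ M₀ w₀) (z : Y) : Wt M₀ fun v => w₀ v z :=
  ⟨fun v => h.nn v z, fun v => h.le1 v z, h.fin z, h.cov z⟩

theorem LT.wt (h : LT P V M α ε δ w) {a b : Y} (hab : dist a b = 1) : Wt M fun v => w v a b :=
  ⟨fun v => h.nn v a b hab, fun v => h.le1 v a b hab, h.fin a b hab, h.cov a b hab⟩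

theorem LT.wtS (h : LT P V M α ε δ w) {y z : Y} {t : ℝ} (h0 : 0 ≤ t) (h1 : t + 1 ≤ dist y z) :
    Wt M (sgw P w t y z) := h.wt (dist_seg P h0 h1)

/-- Equivariance. -/
theorem gl_smul (h0 : Thin P V₀ M₀ w₀) (h : LT P V M α ε δ w) (π : Par) (g : G) (y z : Y) :
    gl P w₀ w π (g • y) (g • z) = g • gl P w₀ w π y z := by
  funext x
  rw [smul_apply]
  rcases x with v | v
  · rw [gl_inl, Sum.smul_inl, gl_inl, P.iso]
    congr 1
    have h1 : (fun u => w₀ u (g • z)) = fun u => (fun u => w₀ u z) (MulAction.toPerm g⁻¹ u) := by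
      funext u
      have := h0.eqv g (g⁻¹ • u) z
      rw [smul_inv_smul] at this
      exact this
    rw [h1]
    exact nrm_equiv (fun u => w₀ u z) (MulAction.toPerm g⁻¹) v
  · rw [gl_inr, Sum.smul_inr, gl_inr, P.iso]
    by_cases hl : lam π.T π.a (dist y z) = 1
    · rw [hl, sub_self, zero_mul, zero_mul]
    · congr 1
      have hd := lt_dist hl
      have hd0 : 0 < dist y z := by have := π.ht; linarith
      have ht := π.ht
      have e1 : ∀ s, 0 ≤ s → s ≤ dist y z →
          P.c (g • y) (g • z) (s / dist y z) = g • P.c y z (s / dist y z) := by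
        intro s hs0 hs1
        rw [P.eqv g y z _ (by positivity) (by rw [div_le_one hd0]; exact hs1)]
      have h1 : sgw P w π.t (g • y) (g • z) =
          fun u => sgw P w π.t y z (MulAction.toPerm g⁻¹ u) := by
        funext u
        rw [sgw, P.iso, e1 _ ht (by linarith), e1 _ (by linarith) hd]
        have := h.eqv g (g⁻¹ • u) _ _ (dist_seg P ht hd)
        rw [smul_inv_smul] at this
        exact this
      rw [h1]
      exact nrm_equiv (sgw P w π.t y z) (MulAction.toPerm g⁻¹) v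

variable (w₀ w) in
/-- The simplices of the join. -/
def Sx : Set (Finset (V₀ ⊕ V)) :=
  {s | (∃ z, ∀ v, Sum.inl v ∈ s → w₀ v z ≠ 0) ∧ ((∀ v, Sum.inr v ∉ s) ∨
    ∃ a b, dist a b = 1 ∧ ∀ v, Sum.inr v ∈ s → w v a b ≠ 0)}

theorem sx_cx [DecidableEq (V₀ ⊕ V)] (h0 : Thin P V₀ M₀ w₀) (h : LT P V M α ε δ w) :
    SCx G (Sx w₀ w) (M₀ + M) where
  sub := by
    rintro s ⟨⟨z, h1⟩, h2⟩ t hts _
    refine ⟨⟨z, fun v hv => h1 v (hts hv)⟩, ?_⟩
    rcases h2 with h2 | ⟨a, b, hab, h2⟩
    · exact Or.inl fun v hv => h2 v (hts hv)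
    · exact Or.inr ⟨a, b, hab, fun v hv => h2 v (hts hv)⟩
  card := by
    rintro s ⟨⟨z, h1⟩, h2⟩
    rw [← Finset.card_toLeft_add_card_toRight]
    refine add_le_add ?_ ?_
    · obtain ⟨s₀, hc, hs⟩ := h0.fin z
      refine (Finset.card_le_card fun v hv => hs v (h1 v ?_)).trans hc
      exact Finset.mem_toLeft.1 hv
    · rcases h2 with h2 | ⟨a, b, hab, h2⟩
      · have : s.toRight = ∅ := by
          rw [Finset.eq_empty_iff_forall_notMem]
          exact fun v hv => h2 v (Finset.mem_toRight.1 hv)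
        rw [this, Finset.card_empty]
        exact Nat.zero_le _
      · obtain ⟨s₀, hc, hs⟩ := h.fin a b hab
        refine (Finset.card_le_card fun v hv => hs v (h2 v ?_)).trans hc
        exact Finset.mem_toRight.1 hv
  inv := by
    rintro g s ⟨⟨z, h1⟩, h2⟩
    have hl : ∀ v : V₀, Sum.inl v ∈ s.image (g • ·) → Sum.inl (g⁻¹ • v) ∈ s := by
      intro v hv
      obtain ⟨x, hx, hxv⟩ := Finset.mem_image.1 hv
      have : x = Sum.inl (g⁻¹ • v) := by
        rw [← Sum.smul_inl, ← hxv, inv_smul_smul]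
      rwa [← this]
    have hr : ∀ v : V, Sum.inr v ∈ s.image (g • ·) → Sum.inr (g⁻¹ • v) ∈ s := by
      intro v hv
      obtain ⟨x, hx, hxv⟩ := Finset.mem_image.1 hv
      have : x = Sum.inr (g⁻¹ • v) := by
        rw [← Sum.smul_inr, ← hxv, inv_smul_smul]
      rwa [← this]
    refine ⟨⟨g • z, fun v hv => ?_⟩, ?_⟩
    · have := h0.eqv g (g⁻¹ • v) z
      rw [smul_inv_smul] at this
      rw [this]
      exact h1 _ (hl v hv)
    · rcases h2 with h2 | ⟨a, b, hab, h2⟩
      · exact Or.inl fun v hv => h2 _ (hr v hv)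
      · refine Or.inr ⟨g • a, g • b, by rw [P.iso]; exact hab, fun v hv => ?_⟩
        have := h.eqv g (g⁻¹ • v) a b hab
        rw [smul_inv_smul] at this
        rw [this]
        exact h2 _ (hr v hv)

theorem sx_stab [DecidableEq (V₀ ⊕ V)] (h0 : Thin P V₀ M₀ w₀) (h : LT P V M α ε δ w) :
    ∀ s ∈ Sx w₀ w, s.Nonempty → ∀ U : Subgroup G, (∀ g ∈ U, s.image (g • ·) = s) → KK U := by
  rintro s ⟨⟨z, h1⟩, h2⟩ hs U hU
  have hm : ∀ g ∈ U, ∀ x ∈ s, g • x ∈ s := by
    intro g hg x hx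
    have := Finset.mem_image_of_mem (g • ·) hx
    rwa [hU g hg] at this
  by_cases hl : s.toLeft.Nonempty
  · refine h0.stab z s.toLeft hl (fun v hv => h1 v (Finset.mem_toLeft.1 hv)) U ?_
    intro g hg v hv
    have := hm g hg _ (Finset.mem_toLeft.1 hv)
    rw [Sum.smul_inl] at this
    exact Finset.mem_toLeft.2 this
  · obtain ⟨x, hx⟩ := hs
    rcases x with v | v
    · exact absurd ⟨v, Finset.mem_toLeft.2 hx⟩ hl
    · rcases h2 with h2 | ⟨a, b, hab, h2⟩
      · exact absurd hx (h2 v)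
      · refine h.stab a b hab s.toRight ⟨v, Finset.mem_toRight.2 hx⟩
          (fun v hv => h2 v (Finset.mem_toRight.1 hv)) U ?_
        intro g hg v hv
        have := hm g hg _ (Finset.mem_toRight.1 hv)
        rw [Sum.smul_inr] at this
        exact Finset.mem_toRight.2 this

theorem gl_pt (h0 : Thin P V₀ M₀ w₀) (h : LT P V M α ε δ w) (π : Par) (y z : Y) :
    IsPt (Sx w₀ w) (gl P w₀ w π y z) := by
  classical
  obtain ⟨s₀, -, hs₀⟩ := h0.fin z
  have hw0 := h0.wt z
  let s0 : Finset V₀ := s₀.filter fun v => w₀ v z ≠ 0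
  have hs0 : ∀ v, w₀ v z ≠ 0 → v ∈ s0 := fun v hv => Finset.mem_filter.2 ⟨hs₀ v hv, hv⟩
  by_cases hl : lam π.T π.a (dist y z) = 1
  · refine ⟨s0.disjSum ∅, ⟨⟨z, ?_⟩, Or.inl ?_⟩, ?_, ?_, ?_⟩
    · intro v hv
      exact (Finset.mem_filter.1 (Finset.inl_mem_disjSum.1 hv)).2
    · intro v hv
      exact absurd (Finset.inr_mem_disjSum.1 hv) (Finset.notMem_empty _)
    · rintro (v | v)
      · rw [gl_inl]
        exact mul_nonneg (lam_nn _ _ _) (hw0.nrm_nn v)
      · rw [gl_inr, hl, sub_self, zero_mul]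
    · rintro (v | v) hv
      · refine Finset.inl_mem_disjSum.2 (hs0 v ?_)
        intro h1
        apply hv
        rw [gl_inl, nrm, h1, zero_div, mul_zero]
      · exfalso
        apply hv
        rw [gl_inr, hl, sub_self, zero_mul]
    · rw [Finset.sum_disjSum, Finset.sum_empty, add_zero]
      simp only [gl_inl, hl, one_mul]
      exact hw0.nrm_sum hs0
  · have hd := lt_dist hl
    have hab := dist_seg P π.ht hd
    have hw := h.wtS π.ht hd
    obtain ⟨s₁, -, hs₁⟩ := h.fin _ _ hab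
    let s1 : Finset V := s₁.filter fun v => sgw P w π.t y z v ≠ 0
    have hs1 : ∀ v, sgw P w π.t y z v ≠ 0 → v ∈ s1 :=
      fun v hv => Finset.mem_filter.2 ⟨hs₁ v hv, hv⟩
    refine ⟨s0.disjSum s1, ⟨⟨z, ?_⟩, Or.inr ⟨_, _, hab, ?_⟩⟩, ?_, ?_, ?_⟩
    · intro v hv
      exact (Finset.mem_filter.1 (Finset.inl_mem_disjSum.1 hv)).2
    · intro v hv
      exact (Finset.mem_filter.1 (Finset.inr_mem_disjSum.1 hv)).2
    · rintro (v | v)
      · rw [gl_inl]
        exact mul_nonneg (lam_nn _ _ _) (hw0.nrm_nn v)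
      · rw [gl_inr]
        exact mul_nonneg (sub_nonneg.2 (lam_le _ _ _)) (hw.nrm_nn v)
    · rintro (v | v) hv
      · refine Finset.inl_mem_disjSum.2 (hs0 v ?_)
        intro h1
        apply hv
        rw [gl_inl, nrm, h1, zero_div, mul_zero]
      · refine Finset.inr_mem_disjSum.2 (hs1 v ?_)
        intro h1
        apply hv
        rw [gl_inr, nrm, h1, zero_div, mul_zero]
    · rw [Finset.sum_disjSum]
      simp only [gl_inl, gl_inr]
      rw [← Finset.mul_sum, ← Finset.mul_sum, hw0.nrm_sum hs0, hw.nrm_sum hs1]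
      ring

end Pool.Agent.ZE
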